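import Pool.Agent.Helper36_X1.Stmts2
import Pool.Agent.Helper18_X1.Upg
import Pool.Agent.Helper32_X1.Clo

/-!
# Squad X1, module LB6: the sum of the elements of `U` on an irreducible representation
-/

open scoped BigOperators

noncomputable section

namespace Pool.Agent.PP.X1.H43

open Pool.Agent.PP.X1 Pool.Agent.PP

section general

variable {F : Type} [Field F]

/-- a finite `ℓ`-group acting linearly in characteristic `ℓ` has a nonzero fixed vector in every
nonzero invariant subspace -/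
theorem fixed_gen {ℓ : ℕ} (hℓ : ℓ.Prime) (hF : CharP F ℓ) (U : Type) [Group U] [Finite U]
    (hU : IsPGroup ℓ U) (M : Type) [AddCommGroup M] [Module F M] (ρ : U → M → M)
    (h1 : ∀ x, ρ 1 x = x) (hm : ∀ r s x, ρ (r * s) x = ρ r (ρ s x))
    (ha : ∀ r x y, ρ r (x + y) = ρ r x + ρ r y) (hs : ∀ r (c : F) x, ρ r (c • x) = c • ρ r x)
    (P : Submodule F M)
    (hP : ∀ r : U, ∀ x ∈ P, ρ r x ∈ P) (v0 : M) (hv0P : v0 ∈ P) (hv0 : v0 ≠ 0) :
    ∃ v : M, v ∈ P ∧ v ≠ 0 ∧ ∀ r, ρ r v = v := by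
  have : Fact ℓ.Prime := ⟨hℓ⟩
  have h0 : ∀ r, ρ r 0 = 0 := by
    intro r
    have := hs r 0 0
    rwa [zero_smul, zero_smul] at this
  let _ : Algebra (ZMod ℓ) F := ZMod.algebra F ℓ
  let _ : Module (ZMod ℓ) M := Module.compHom M (algebraMap (ZMod ℓ) F)
  have hsc : ∀ (c : ZMod ℓ) (x : M), c • x = (algebraMap (ZMod ℓ) F c) • x := fun _ _ => rfl
  let W : Submodule (ZMod ℓ) M := Submodule.span (ZMod ℓ) (Set.range fun r => ρ r v0)
  have hWfin : Finite W := by
    have : Module.Finite (ZMod ℓ) W := Module.Finite.span_of_finite _ (Set.finite_range _)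
    exact Module.finite_of_finite (ZMod ℓ)
  have hWP : ∀ w ∈ W, w ∈ P := by
    intro w hw
    induction hw using Submodule.span_induction with
    | mem x hx =>
      obtain ⟨s, rfl⟩ := hx
      exact hP s v0 hv0P
    | zero => exact P.zero_mem
    | add x y _ _ hx hy => exact P.add_mem hx hy
    | smul c x _ hx =>
      rw [hsc]
      exact P.smul_mem _ hx
  have hstab : ∀ r : U, ∀ w ∈ W, ρ r w ∈ W := by
    intro r w hw
    induction hw using Submodule.span_induction with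
    | mem x hx =>
      obtain ⟨s, rfl⟩ := hx
      apply Submodule.subset_span
      exact ⟨r * s, hm r s v0⟩
    | zero => rw [h0]; exact W.zero_mem
    | add x y _ _ hx hy => rw [ha]; exact W.add_mem hx hy
    | smul c x _ hx =>
      rw [hsc, hs, ← hsc]
      exact W.smul_mem c hx
  let _ : MulAction U W :=
    { smul := fun r w => ⟨ρ r w, hstab r w w.2⟩
      one_smul := fun w => Subtype.ext (h1 _)
      mul_smul := fun r s w => Subtype.ext (hm r s _) }
  have hv0W : v0 ∈ W := Submodule.subset_span ⟨1, h1 v0⟩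
  have hdvd : ℓ ∣ Nat.card W := by
    have h1 : addOrderOf (⟨v0, hv0W⟩ : W) = ℓ := by
      apply addOrderOf_eq_prime
      · apply Subtype.ext
        have h2 : ((ℓ • (⟨v0, hv0W⟩ : W) : W) : M) = ℓ • v0 := rfl
        rw [h2, ← Nat.cast_smul_eq_nsmul F, CharP.cast_eq_zero, zero_smul]
        rfl
      · intro h
        exact hv0 (congrArg Subtype.val h)
    have h2 : addOrderOf (⟨v0, hv0W⟩ : W) ∣ Nat.card W := addOrderOf_dvd_natCard _
    rw [h1] at h2
    exact h2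
  obtain ⟨b, hb, hne⟩ := hU.exists_fixed_point_of_prime_dvd_card_of_fixed_point W hdvd
    (a := (0 : W)) (by
      intro r
      apply Subtype.ext
      exact h0 r)
  refine ⟨b, hWP b b.2, ?_, ?_⟩
  · intro h
    apply hne
    apply Subtype.ext
    exact h.symm
  · intro r
    exact congrArg Subtype.val (hb r)

/-- the translates of a nonzero vector span an irreducible representation -/
theorem irr_span {G : Type} [Group G] {P : Subgroup G} {k : ℕ}
    (ρ : P →* Matrix (Fin k) (Fin k) F) (hρ : IsIrr ρ) (S : Submodule F (Fin k → F))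
    {v : Fin k → F} (hv : v ≠ 0) (hS : ∀ g ∈ P, (ro ρ g).mulVec v ∈ S) (x : Fin k → F) :
    x ∈ S := by
  obtain ⟨i, hi⟩ : ∃ i, v i ≠ 0 := by
    by_contra h
    push Not at h
    exact hv (funext h)
  have h1 : ∀ M : Matrix (Fin k) (Fin k) F, M.mulVec v ∈ S := by
    intro M
    have hM : M ∈ Submodule.span F (Set.range ρ) := by
      rw [hρ.2]
      trivial
    induction hM using Submodule.span_induction with
    | mem x hx =>
      obtain ⟨g, rfl⟩ := hx
      have := hS g g.2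
      rwa [ro_coe] at this
    | zero => rw [Matrix.zero_mulVec]; exact S.zero_mem
    | add x y _ _ hx hy => rw [Matrix.add_mulVec]; exact S.add_mem hx hy
    | smul c x _ hx => rw [Matrix.smul_mulVec]; exact S.smul_mem _ hx
  have h2 := h1 (Matrix.of fun a b => if b = i then x a / v i else 0)
  have h3 : (Matrix.of fun a b => if b = i then x a / v i else 0).mulVec v = x := by
    funext a
    simp only [Matrix.mulVec, dotProduct, Matrix.of_apply, ite_mul, zero_mul,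
      Finset.sum_ite_eq', Finset.mem_univ, if_true]
    exact div_mul_cancel₀ _ hi
  rwa [h3] at h2

end general

section rgd

variable {F G : Type} [Field F] [Group G] {ℓ : ℕ} (R : RGD ℓ G)

theorem mem_lev_univ {b : R.E} (hb : b ∈ R.Φ) : b ∈ R.lev Finset.univ := by
  refine ⟨hb, ?_⟩
  have h1 : ∀ v : R.E, Nn R.a v →
      v ∈ Submodule.span ℝ (R.a '' ((Finset.univ : Finset (Fin R.r)) : Set (Fin R.r))) := by
    rintro v ⟨k, -, rfl⟩
    refine Submodule.sum_mem _ fun i _ => Submodule.smul_mem _ _ (Submodule.subset_span ?_)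
    exact ⟨i, Finset.mem_coe.mpr (Finset.mem_univ i), rfl⟩
  rcases R.sgn b hb with h | h
  · exact h1 _ h
  · have := Submodule.neg_mem _ (h1 _ h)
    rwa [neg_neg] at this

theorem PJ_univ : R.PJ Finset.univ = ⊤ := by
  rw [eq_top_iff, ← R.gen]
  unfold RGD.PJ
  refine sup_le le_sup_left (iSup₂_le fun b hb => ?_)
  exact (R.X_le_gp (Or.inr (mem_lev_univ R hb))).trans le_sup_right

theorem exists_long (hlng : LngStmt) : ∃ w : List (Fin R.r),
    (∀ b ∈ R.pos ∩ R.lev Finset.univ, R.sw w b ∈ R.neg) ∧ R.Uw w = R.U ∧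
      ∀ b ∈ R.pos, R.sw w.reverse b ∈ R.neg := by
  obtain ⟨-, w, -, hw⟩ := hlng ℓ G R Finset.univ
  have h1 : ∀ b ∈ R.pos, R.sw w.reverse b ∈ R.neg := by
    intro b hb
    rcases R.pos_or_neg (R.sw_mem (w := w.reverse) hb.1) with h | h
    · exfalso
      have h2 := hw _ ⟨h, mem_lev_univ R h.1⟩
      rw [R.sw_sw_reverse] at h2
      exact R.not_pos_neg hb h2
    · exact h
  refine ⟨w, hw, ?_, h1⟩
  unfold RGD.Uw RGD.U
  congr 1
  ext b
  exact ⟨fun h => h.1, fun h => ⟨h, h1 b h⟩⟩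

theorem pU [Fact ℓ.Prime] [Finite G] : IsPGroup ℓ R.U :=
  H18.upg ℓ G R R.pos (H32.clo ℓ G R).1 subset_rfl

variable {k : ℕ} (ρ : R.PJ Finset.univ →* Matrix (Fin k) (Fin k) F)

theorem mP (g : G) : g ∈ R.PJ Finset.univ := by
  rw [PJ_univ]
  trivial

theorem ro_mul' (g h : G) : ro ρ (g * h) = ro ρ g * ro ρ h := ro_mul ρ (mP R g) (mP R h)

theorem ro_inv' (g : G) (v : Fin k → F) : (ro ρ g⁻¹).mulVec ((ro ρ g).mulVec v) = v := by
  rw [Matrix.mulVec_mulVec, ← ro_mul', inv_mul_cancel, ro_one, Matrix.one_mulVec]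

theorem ro_inv'' (g : G) (v : Fin k → F) : (ro ρ g).mulVec ((ro ρ g⁻¹).mulVec v) = v := by
  rw [Matrix.mulVec_mulVec, ← ro_mul', mul_inv_cancel, ro_one, Matrix.one_mulVec]

/-- the operators of words are injective on the fixed points -/
theorem Aw_inj [Fact ℓ.Prime] [Finite G] (hF : GoodF ℓ F) (haca : AcaStmt)
    (hA : ∀ i, ∀ v ∈ fx R.U ρ, (Ai R ρ i).mulVec v = -v) (w : List (Fin R.r)) :
    ∀ v ∈ fx R.U ρ, (Aw R ρ w).mulVec v = 0 → v = 0 := by
  obtain ⟨a1, a2, a3, a4, a5, a6⟩ := haca ℓ F hF G R Finset.univ k ρ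
  induction w with
  | nil =>
    intro v _ h
    rw [← a6 v]
    exact h
  | cons i w ih =>
    intro v hv h
    obtain ⟨b1, b2⟩ := a1 w (fun _ _ => Finset.mem_univ _) v hv
    obtain ⟨c1, c2⟩ := b2 i (Finset.mem_univ _)
    rcases R.pos_or_neg (R.sw_mem (w := w.reverse) (R.mem i)) with hi | hi
    · have h1 := c1 hi
      rw [h, hA i _ b1] at h1
      exact ih v hv (neg_eq_zero.mp h1.symm)
    · have h1 := c2 hi
      rw [h, Matrix.mulVec_zero] at h1
      have ht : (R.nw w)⁻¹ * (R.n i * R.n i) * R.nw w ∈ R.T := by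
        rw [← R.T_nw (w := w)]
        have : R.nw w * ((R.nw w)⁻¹ * (R.n i * R.n i) * R.nw w) * (R.nw w)⁻¹ = R.n i * R.n i := by
          group
        rw [this]
        exact R.nn i
      have h2 := ih _ (a5 _ ht v hv) h1.symm
      have h3 := ro_inv' R ρ ((R.nw w)⁻¹ * (R.n i * R.n i) * R.nw w) v
      rw [h2, Matrix.mulVec_zero] at h3
      exact h3.symm

/-- if an operator vanishes on the fixed points then so does the operator of a longest word -/
theorem Aw_zero [Fact ℓ.Prime] [Finite G] (hF : GoodF ℓ F) (haca : AcaStmt) (i : Fin R.r)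
    (hA : ∀ v ∈ fx R.U ρ, (Ai R ρ i).mulVec v = 0) (w : List (Fin R.r))
    (hw : ∀ b ∈ R.pos, R.sw w.reverse b ∈ R.neg) :
    ∀ v ∈ fx R.U ρ, (Aw R ρ w).mulVec v = 0 := by
  obtain ⟨a1, a2, a3, a4, a5, a6⟩ := haca ℓ F hF G R Finset.univ k ρ
  intro v hv
  have ht : (R.nw w)⁻¹ * (R.n i * R.n i) * R.nw w ∈ R.T := by
    rw [← R.T_nw (w := w)]
    have : R.nw w * ((R.nw w)⁻¹ * (R.n i * R.n i) * R.nw w) * (R.nw w)⁻¹ = R.n i * R.n i := by
      group
    rw [this]
    exact R.nn i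
  set t := (R.nw w)⁻¹ * (R.n i * R.n i) * R.nw w with htdef
  have hv' := a5 _ (R.T.inv_mem ht) v hv
  obtain ⟨b1, b2⟩ := a1 w (fun _ _ => Finset.mem_univ _) _ hv'
  obtain ⟨-, c2⟩ := b2 i (Finset.mem_univ _)
  have h1 := c2 (hw _ (R.a_pos i))
  rw [← htdef, ro_inv''] at h1
  rw [← h1]
  exact hA _ (a1 (i :: w) (fun _ _ => Finset.mem_univ _) _ hv').1

/-- the sum of the elements of `U` -/
def SU [Finite G] : Matrix (Fin k) (Fin k) F := ∑ᶠ u : R.U, ro ρ (u : G)

theorem SU_mul [Finite G] {x : G} (hx : x ∈ R.U) : SU R ρ * ro ρ x = SU R ρ := by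
  classical
  have := Fintype.ofFinite R.U
  unfold SU
  rw [finsum_eq_sum_of_fintype, Finset.sum_mul]
  refine Fintype.sum_equiv (Equiv.mulRight (⟨x, hx⟩ : R.U)) _ _ fun u => ?_
  rw [← ro_mul']
  rfl

theorem Aw_eq [Finite G] {w : List (Fin R.r)} (hU : R.Uw w = R.U) :
    Aw R ρ w = SU R ρ * ro ρ (R.nw w) := by
  classical
  have := Fintype.ofFinite R.U
  unfold Aw SU
  rw [hU, finsum_eq_sum_of_fintype, finsum_eq_sum_of_fintype, Finset.sum_mul]
  exact Finset.sum_congr rfl fun u _ => ro_mul' R ρ _ _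

/-- the translates of `n L` under `U` generate the space -/
theorem span_U [Fact ℓ.Prime] [Finite G] (hF : GoodF ℓ F) (hvui : VuiStmt) (hcyx : CycxStmt)
    (haca : AcaStmt) (hρ : IsIrr ρ) {w : List (Fin R.r)}
    (hw : ∀ b ∈ R.pos ∩ R.lev Finset.univ, R.sw w b ∈ R.neg) (x : Fin k → F) :
    x ∈ Submodule.span F
      {x | ∃ u ∈ R.U, ∃ v' ∈ fx R.U ρ, x = (ro ρ (u * R.nw w)).mulVec v'} := by
  obtain ⟨a1, a2, a3, a4, a5, a6⟩ := haca ℓ F hF G R Finset.univ k ρ
  obtain ⟨b1, -⟩ := hvui ℓ F hF G R Finset.univ k ρ hρ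
  obtain ⟨v, hv, hv0⟩ := Submodule.exists_mem_ne_zero_of_ne_bot b1
  exact irr_span ρ hρ _ hv0 (fun g hg => hcyx ℓ F hF G R Finset.univ k ρ (fx R.U ρ) le_rfl a5 a3 w
    (fun _ _ => Finset.mem_univ _) hw g hg v hv) x

/-- the sum of the elements of `U` is zero if some operator is zero -/
theorem SU_zero [Fact ℓ.Prime] [Finite G] (hF : GoodF ℓ F) (hvui : VuiStmt) (hcyx : CycxStmt)
    (haca : AcaStmt) (hlng : LngStmt) (hρ : IsIrr ρ) (i : Fin R.r)
    (hA : ∀ v ∈ fx R.U ρ, (Ai R ρ i).mulVec v = 0) : SU R ρ = 0 := by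
  obtain ⟨w, hw, hU, hw'⟩ := exists_long R hlng
  have h1 : ∀ x : Fin k → F, (SU R ρ).mulVec x = 0 := by
    intro x
    have hx := span_U R ρ hF hvui hcyx haca hρ hw x
    induction hx using Submodule.span_induction with
    | mem x hx =>
      obtain ⟨u, hu, v', hv', rfl⟩ := hx
      rw [Matrix.mulVec_mulVec, ro_mul', ← mul_assoc, SU_mul R ρ hu, ← Aw_eq R ρ hU]
      exact Aw_zero R ρ hF haca i hA w hw' v' hv'
    | zero => rw [Matrix.mulVec_zero]
    | add x y _ _ hx hy => rw [Matrix.mulVec_add, hx, hy, add_zero]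
    | smul c x _ hx => rw [Matrix.mulVec_smul, hx, smul_zero]
  apply Matrix.toLin'.injective
  apply LinearMap.ext
  intro x
  rw [Matrix.toLin'_apply, h1, map_zero, LinearMap.zero_apply]

/-- the sum of the elements of `U` is not zero if no operator is zero -/
theorem SU_ne [Fact ℓ.Prime] [Finite G] (hF : GoodF ℓ F) (hvui : VuiStmt)
    (haca : AcaStmt) (hlng : LngStmt) (hρ : IsIrr ρ)
    (hA : ∀ i, ∀ v ∈ fx R.U ρ, (Ai R ρ i).mulVec v = -v) : SU R ρ ≠ 0 := by
  obtain ⟨w, hw, hU, hw'⟩ := exists_long R hlng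
  obtain ⟨b1, -⟩ := hvui ℓ F hF G R Finset.univ k ρ hρ
  obtain ⟨v, hv, hv0⟩ := Submodule.exists_mem_ne_zero_of_ne_bot b1
  intro h
  apply hv0
  apply Aw_inj R ρ hF haca hA w v hv
  rw [Aw_eq R ρ hU, h, zero_mul, Matrix.zero_mulVec]

/-- the map `f ↦ ∑ u n f(u)` -/
def Psi [Finite G] (n : G) : (R.U → fx R.U ρ) →ₗ[F] (Fin k → F) where
  toFun f := ∑ᶠ u : R.U, (ro ρ ((u : G) * n)).mulVec (f u : Fin k → F)
  map_add' f g := by
    have := Fintype.ofFinite R.U
    simp only [finsum_eq_sum_of_fintype, Pi.add_apply, Submodule.coe_add, Matrix.mulVec_add,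
      Finset.sum_add_distrib]
  map_smul' c f := by
    have := Fintype.ofFinite R.U
    simp only [finsum_eq_sum_of_fintype, Pi.smul_apply, Submodule.coe_smul, Matrix.mulVec_smul,
      Finset.smul_sum, RingHom.id_apply]

theorem Psi_apply [Finite G] (n : G) (f : R.U → fx R.U ρ) :
    Psi R ρ n f = ∑ᶠ u : R.U, (ro ρ ((u : G) * n)).mulVec (f u : Fin k → F) := rfl

/-- the map is equivariant -/
theorem Psi_equiv [Finite G] (n : G) (f : R.U → fx R.U ρ) (x : R.U) :
    (ro ρ (x : G)).mulVec (Psi R ρ n f) = Psi R ρ n (fun u => f (x⁻¹ * u)) := by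
  classical
  have := Fintype.ofFinite R.U
  rw [Psi_apply, Psi_apply, finsum_eq_sum_of_fintype, finsum_eq_sum_of_fintype,
    Matrix.mulVec_sum]
  refine Fintype.sum_equiv (Equiv.mulLeft x) _ _ fun u => ?_
  rw [Matrix.mulVec_mulVec, ← ro_mul', ← mul_assoc, Equiv.coe_mulLeft, inv_mul_cancel_left]
  rfl

theorem Psi_inj [Fact ℓ.Prime] [Finite G] (hF : GoodF ℓ F)
    (haca : AcaStmt) (hA : ∀ i, ∀ v ∈ fx R.U ρ, (Ai R ρ i).mulVec v = -v)
    {w : List (Fin R.r)} (hU : R.Uw w = R.U) : Function.Injective (Psi R ρ (R.nw w)) := by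
  classical
  have := Fintype.ofFinite R.U
  rw [← LinearMap.ker_eq_bot]
  by_contra hne
  obtain ⟨f, hf, hf0⟩ := Submodule.exists_mem_ne_zero_of_ne_bot hne
  obtain ⟨g, hg, hg0, hgf⟩ := fixed_gen hF.prime hF.char R.U (pU R) (R.U → fx R.U ρ)
    (fun x f => fun u => f (x⁻¹ * u)) (fun f => by simp) (fun r s f => by
      funext u
      simp only [mul_inv_rev, mul_assoc]) (fun _ _ _ => rfl) (fun _ _ _ => rfl)
    (LinearMap.ker (Psi R ρ (R.nw w))) (fun r f hf => by
      rw [LinearMap.mem_ker] at hf ⊢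
      rw [← Psi_equiv, hf, Matrix.mulVec_zero]) f hf hf0
  apply hg0
  have hg1 : ∀ u, g u = g 1 := by
    intro u
    have := congrFun (hgf u) u
    simp only [inv_mul_cancel] at this
    exact this.symm
  have hg2 : (Aw R ρ w).mulVec (g 1 : Fin k → F) = 0 := by
    rw [LinearMap.mem_ker, Psi_apply, finsum_eq_sum_of_fintype] at hg
    rw [Aw_eq R ρ hU, SU, finsum_eq_sum_of_fintype, Finset.sum_mul, Matrix.sum_mulVec, ← hg]
    refine Finset.sum_congr rfl fun u _ => ?_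
    rw [hg1 u, ro_mul']
  have hg3 := Aw_inj R ρ hF haca hA w _ (g 1).2 hg2
  funext u
  rw [hg1 u]
  exact Subtype.ext hg3

theorem Psi_surj [Fact ℓ.Prime] [Finite G] (hF : GoodF ℓ F) (hvui : VuiStmt) (hcyx : CycxStmt)
    (haca : AcaStmt) (hρ : IsIrr ρ) {w : List (Fin R.r)}
    (hw : ∀ b ∈ R.pos ∩ R.lev Finset.univ, R.sw w b ∈ R.neg) :
    Function.Surjective (Psi R ρ (R.nw w)) := by
  classical
  have := Fintype.ofFinite R.U
  rw [← LinearMap.range_eq_top, eq_top_iff]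
  intro x _
  have hx := span_U R ρ hF hvui hcyx haca hρ hw x
  refine Submodule.span_le.mpr ?_ hx
  rintro _ ⟨u, hu, v', hv', rfl⟩
  refine ⟨Pi.single ⟨u, hu⟩ ⟨v', hv'⟩, ?_⟩
  rw [Psi_apply, finsum_eq_sum_of_fintype, Finset.sum_eq_single (⟨u, hu⟩ : R.U)]
  · rw [Pi.single_eq_same]
  · intro y _ hy
    rw [Pi.single_eq_of_ne hy, Submodule.coe_zero, Matrix.mulVec_zero]
  · intro h
    exact absurd (Finset.mem_univ _) h

theorem exists_phi [Fact ℓ.Prime] [Finite G] (hF : GoodF ℓ F) (hvui : VuiStmt) (hcyx : CycxStmt)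
    (haca : AcaStmt) (hlng : LngStmt) (hρ : IsIrr ρ)
    (hA : ∀ i, ∀ v ∈ fx R.U ρ, (Ai R ρ i).mulVec v = -v) : ∃ φ : Matrix (Fin k) (Fin k) F,
    ∑ᶠ u : R.U, ro ρ (u : G) * φ * ro ρ (u : G)⁻¹ = 1 := by
  classical
  have := Fintype.ofFinite R.U
  obtain ⟨w, hw, hU, hw'⟩ := exists_long R hlng
  let e : (R.U → fx R.U ρ) ≃ₗ[F] (Fin k → F) := LinearEquiv.ofBijective (Psi R ρ (R.nw w))
    ⟨Psi_inj R ρ hF haca hA hU, Psi_surj R ρ hF hvui hcyx haca hρ hw⟩
  let φl : (Fin k → F) →ₗ[F] (Fin k → F) := (ro ρ (R.nw w)).mulVecLin ∘ₗ (fx R.U ρ).subtype ∘ₗ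
    LinearMap.proj (1 : R.U) ∘ₗ e.symm.toLinearMap
  have hφ : ∀ f : R.U → fx R.U ρ, φl (e f) = (ro ρ (R.nw w)).mulVec (f 1 : Fin k → F) := by
    intro f
    show (ro ρ (R.nw w)).mulVec ((e.symm (e f)) 1 : Fin k → F) = _
    rw [LinearEquiv.symm_apply_apply]
  refine ⟨LinearMap.toMatrix' φl, ?_⟩
  rw [finsum_eq_sum_of_fintype]
  apply Matrix.toLin'.injective
  apply LinearMap.ext
  intro x
  obtain ⟨f, rfl⟩ := e.surjective x
  rw [Matrix.toLin'_apply, Matrix.toLin'_apply, Matrix.one_mulVec, Matrix.sum_mulVec]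
  have h2 : e f = ∑ u : R.U, (ro ρ ((u : G) * R.nw w)).mulVec (f u : Fin k → F) := by
    show Psi R ρ (R.nw w) f = _
    rw [Psi_apply, finsum_eq_sum_of_fintype]
  conv_rhs => rw [h2]
  refine Finset.sum_congr rfl fun u _ => ?_
  rw [mul_assoc, ← Matrix.mulVec_mulVec, ← Matrix.mulVec_mulVec]
  have h3 : (ro ρ (u : G)⁻¹).mulVec (e f) = e (fun y => f (u * y)) := by
    have := Psi_equiv R ρ (R.nw w) f u⁻¹
    rw [inv_inv] at this
    exact this
  rw [h3, ← Matrix.toLin'_apply (LinearMap.toMatrix' φl), Matrix.toLin'_toMatrix', hφ, mul_one,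
    Matrix.mulVec_mulVec, ← ro_mul']

end rgd

/-- LB6: the sum of the elements of `U` for `J` the set of all simple roots. -/
theorem lb6 (hvui : VuiStmt) (hlb1 : Lb1Stmt) (hcyx : CycxStmt) (haca : AcaStmt)
    (hlng : LngStmt) : Lb6Stmt := by
  intro ℓ _ F _ hF G _ _ R k ρ hρ
  have key : ∀ (m : ℕ) (σ : R.B →* Matrix (Fin m) (Fin m) F) (K : Finset (Fin R.r)),
      Lab R Finset.univ ρ σ K →
      (K = Finset.univ → ∀ i, ∀ v ∈ fx R.U ρ, (Ai R ρ i).mulVec v = -v) ∧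
      (K ≠ Finset.univ → ∃ i, ∀ v ∈ fx R.U ρ, (Ai R ρ i).mulVec v = 0) := by
    intro m σ K hL
    obtain ⟨-, h2⟩ := (hlb1 ℓ F hF G R Finset.univ).2 k m ρ σ K hL
    obtain ⟨-, -, -, X, Y, -, hX, hXs, -⟩ := hL
    constructor
    · intro hK i v hv
      obtain ⟨c, rfl⟩ := hXs v hv
      have h3 := h2 X hX i (Finset.mem_univ _)
      rw [if_pos (hK ▸ Finset.mem_univ i)] at h3
      rw [Matrix.mulVec_mulVec, h3, Matrix.neg_mulVec]
    · intro hK
      obtain ⟨i, hi⟩ : ∃ i, i ∉ K := by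
        by_contra h
        push Not at h
        exact hK (Finset.eq_univ_iff_forall.mpr h)
      refine ⟨i, fun v hv => ?_⟩
      obtain ⟨c, rfl⟩ := hXs v hv
      have h3 := h2 X hX i (Finset.mem_univ _)
      rw [if_neg hi] at h3
      rw [Matrix.mulVec_mulVec, h3, Matrix.zero_mulVec]
  constructor
  · obtain ⟨m, σ, K, hL⟩ := (hlb1 ℓ F hF G R Finset.univ).1 k ρ hρ
    by_cases hK : K = Finset.univ
    · exact Or.inr (exists_phi R ρ hF hvui hcyx haca hlng hρ ((key m σ K hL).1 hK))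
    · obtain ⟨i, hi⟩ := (key m σ K hL).2 hK
      exact Or.inl (SU_zero R ρ hF hvui hcyx haca hlng hρ i hi)
  · intro m σ K hL
    constructor
    · intro h hK
      exact SU_ne R ρ hF hvui haca hlng hρ ((key m σ K hL).1 hK) h
    · intro hK
      obtain ⟨i, hi⟩ := (key m σ K hL).2 hK
      exact SU_zero R ρ hF hvui hcyx haca hlng hρ i hi

end Pool.Agent.PP.X1.H43
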